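import Pool.Agent.Lib.MP_fb3619_al.Iface

/-! # OPS and OPSB -/

set_option autoImplicit false

universe u

namespace Pool.Agent.FourGp.H9

section

variable {R : Type u} [Ring R]

lemma half (h2 : ∀ x : R, x + x = 0 → x = 0) {x y : R} (h : x + x = y + y) : x = y := by
  have : (x - y) + (x - y) = 0 := by
    have : (x - y) + (x - y) = (x + x) - (y + y) := by abel
    rw [this, h, sub_self]
  exact sub_eq_zero.1 (h2 _ this)

/-- The basic facts. -/
lemma basic (h2 : ∀ x : R, x + x = 0 → x = 0) (r d j : R) (n : ℕ) (hr : r = (1 + j) * d)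
    (h1 : r * ((1 - j) * d) = 1) (h1' : ((1 - j) * d) * r = 1) (hn : r ^ (2 * n + 1) = 1) :
    Commute d (j * d) ∧ ∃ d', d * d' = 1 ∧ d' * d = 1 := by
  set s := (1 - j) * d with hs
  have hd : r + s = d + d := by rw [hr, hs]; noncomm_ring
  have hjd : r - s = j * d + j * d := by rw [hr, hs]; noncomm_ring
  have hrs : Commute r s := by rw [commute_iff_eq, h1, h1']
  have hrd : Commute r d := by
    have h : Commute r (d + d) := by rw [← hd]; exact (Commute.refl r).add_right hrs
    rw [commute_iff_eq]
    apply half h2
    have := h.eq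
    rw [mul_add, add_mul] at this
    exact this
  have hsd : Commute s d := by
    have h : Commute s (d + d) := by rw [← hd]; exact hrs.symm.add_right (Commute.refl s)
    rw [commute_iff_eq]
    apply half h2
    have := h.eq
    rw [mul_add, add_mul] at this
    exact this
  have hdj : Commute d (j * d) := by
    have h : Commute d (j * d + j * d) := by rw [← hjd]; exact (hrd.symm).sub_right hsd.symm
    rw [commute_iff_eq]
    apply half h2
    have := h.eq
    rw [mul_add, add_mul] at this
    exact this
  refine ⟨hdj, ?_⟩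
  set q : R := ∑ i ∈ Finset.range (2 * n + 1), (-(r * r)) ^ i with hq
  have hgeo : (1 + r * r) * q = 1 + 1 := by
    have h := mul_neg_geom_sum (-(r * r)) (2 * n + 1)
    rw [sub_neg_eq_add] at h
    rw [hq, h]
    have : (-(r * r)) ^ (2 * n + 1) = -1 := by
      rw [Odd.neg_pow ⟨n, rfl⟩, (Commute.refl r).mul_pow, hn]
      simp
    rw [this]
    abel
  have hr2 : 1 + r * r = r * d + r * d := by
    rw [← mul_add, ← hd, mul_add, h1]
    abel
  have hrdq : r * d * q = 1 := by
    apply half h2
    rw [← add_mul, ← hr2, hgeo]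
  have hqr : Commute q r := by
    rw [hq]
    refine Commute.sum_left _ _ _ (fun i _ => ?_)
    exact (((Commute.refl r).mul_left (Commute.refl r)).neg_left).pow_left i
  have hqd : Commute q d := by
    rw [hq]
    refine Commute.sum_left _ _ _ (fun i _ => ?_)
    exact ((hrd.mul_left hrd).neg_left).pow_left i
  refine ⟨r * q, ?_, ?_⟩
  · rw [← mul_assoc, ← hrd.eq, hrdq]
  · rw [mul_assoc, hqd.eq, ← mul_assoc, hrdq]

/-- `j` commutes with `d`. -/
lemma j_comm {d j d' : R} (h : Commute d (j * d)) (h1 : d * d' = 1) : Commute d j := by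
  rw [commute_iff_eq]
  have : d * j * (d * d') = j * d * (d * d') := by
    rw [← mul_assoc, mul_assoc d j d, h.eq, mul_assoc (j * d) d d', ← mul_assoc (j * d)]
  rwa [h1, mul_one, mul_one] at this

end

/-- OPS. -/
theorem ops : OpsS.{u} := by
  intro R _ h2 r d j n hr h1 h1' hn
  obtain ⟨hdj, d', hd1, hd2⟩ := basic h2 r d j n hr h1 h1' hn
  have hc := j_comm hdj hd1
  have e1 : (1 - j * j) * (d * d) = 1 := by
    have : (1 + j) * d * ((1 - j) * d) = (1 - j * j) * (d * d) := by
      have h3 : d * ((1 - j) * d) = (1 - j) * (d * d) := by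
        rw [← mul_assoc, mul_sub, mul_one, hc.eq]
        noncomm_ring
      rw [mul_assoc, h3, ← mul_assoc]
      congr 1
      noncomm_ring
    rw [← this, ← hr, h1]
  have hc2 : Commute (1 - j * j) (d * d) := by
    have hj : Commute j (d * d) := hc.symm.mul_right hc.symm
    exact (Commute.one_left _).sub_left (hj.mul_left hj)
  refine ⟨hc.eq, ⟨d', hd1, hd2⟩, e1, ⟨d * d, ?_, e1⟩, ?_⟩
  · rw [← hc2.eq, e1]
  · have h4 : d * ((1 + j) * d) = (1 + j) * (d * d) := by
      rw [← mul_assoc, mul_add, mul_one, hc.eq]
      noncomm_ring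
    have h5 : d * d * (1 - j) = (1 - j) * (d * d) := by
      have hj : Commute j (d * d) := hc.symm.mul_right hc.symm
      rw [mul_sub, sub_mul, mul_one, one_mul, hj.eq]
    calc r * r * (1 - j) = (1 + j) * (d * ((1 + j) * d)) * (1 - j) := by rw [hr, mul_assoc (1 + j)]
      _ = (1 + j) * (1 + j) * (d * d * (1 - j)) := by rw [h4]; simp only [mul_assoc]
      _ = (1 + j) * ((1 - j * j) * (d * d)) := by
          rw [h5]
          have : (1 + j) * (1 + j) * ((1 - j) * (d * d)) =
            (1 + j) * (((1 + j) * (1 - j)) * (d * d)) := by simp only [mul_assoc]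
          rw [this]
          congr 2
          noncomm_ring
      _ = 1 + j := by rw [e1, mul_one]

/-- OPSB. -/
theorem opsb : OpsbS.{u} := by
  intro R _ h2 r d j r' d' j' n n' hr h1 h1' hn hr' k1 k1' hn' hrr
  obtain ⟨hdj, e, he1, he2⟩ := basic h2 r d j n hr h1 h1' hn
  obtain ⟨hdj', e', he1', he2'⟩ := basic h2 r' d' j' n' hr' k1 k1' hn'
  set s := (1 - j) * d with hs
  set s' := (1 - j') * d' with hs'
  let ur : Rˣ := ⟨r, s, h1, h1'⟩
  let ur' : Rˣ := ⟨r', s', k1, k1'⟩
  have c0 : Commute r r' := hrr
  have c1 : Commute s r' := by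
    have : Commute (ur : R) r' := c0
    exact this.units_inv_left
  have c2 : Commute r s' := by
    have : Commute r (ur' : R) := c0
    exact this.units_inv_right
  have c3 : Commute s s' := by
    have : Commute s (ur' : R) := c1
    exact this.units_inv_right
  have hd : r + s = d + d := by rw [hr, hs]; noncomm_ring
  have hjd : r - s = j * d + j * d := by rw [hr, hs]; noncomm_ring
  have hd' : r' + s' = d' + d' := by rw [hr', hs']; noncomm_ring
  have hjd' : r' - s' = j' * d' + j' * d' := by rw [hr', hs']; noncomm_ring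
  have hl : ∀ {x y : R}, Commute (x + x) y → Commute x y := by
    intro x y h
    rw [commute_iff_eq]
    apply half h2
    have := h.eq
    rw [mul_add, add_mul] at this
    exact this
  have hrr : ∀ {x y : R}, Commute x (y + y) → Commute x y := fun h => (hl h.symm).symm
  have a1 : Commute d d' := by
    apply hl
    apply hrr
    rw [← hd, ← hd']
    exact (c0.add_right c2).add_left (c1.add_right c3)
  have a2 : Commute d (j' * d') := by
    apply hl
    apply hrr
    rw [← hd, ← hjd']
    exact (c0.sub_right c2).add_left (c1.sub_right c3)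
  have a3 : Commute (j * d) d' := by
    apply hl
    apply hrr
    rw [← hjd, ← hd']
    exact (c0.add_right c2).sub_left (c1.add_right c3)
  have a4 : Commute (j * d) (j' * d') := by
    apply hl
    apply hrr
    rw [← hjd, ← hjd']
    exact (c0.sub_right c2).sub_left (c1.sub_right c3)
  let ud : Rˣ := ⟨d, e, he1, he2⟩
  let ud' : Rˣ := ⟨d', e', he1', he2'⟩
  have b1 : Commute e (j' * d') := by
    have : Commute (ud : R) (j' * d') := a2
    exact this.units_inv_left
  have b2 : Commute (j * d) e' := by
    have : Commute (j * d) (ud' : R) := a3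
    exact this.units_inv_right
  have b3 : Commute e e' := by
    have : Commute (ud : R) (ud' : R) := a1
    exact this.units_inv_left.units_inv_right
  have ej : j = (j * d) * e := by rw [mul_assoc, he1, mul_one]
  have ej' : j' = (j' * d') * e' := by rw [mul_assoc, he1', mul_one]
  have : Commute ((j * d) * e) ((j' * d') * e') :=
    (a4.mul_right b2).mul_left (b1.mul_right b3)
  rw [← ej, ← ej'] at this
  exact this.eq

end Pool.Agent.FourGp.H9
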