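import Pool.Agent.Lib.MP_fb3619_al.H9.Tcen

/-! # TAX -/

set_option autoImplicit false

universe u

namespace Pool.Agent.FourGp.H9

section

variable {X Y Z : Type u} [AddCommGroup X] [AddCommGroup Y] [AddCommGroup Z] {T : Tri X Y Z}

lemma form_symm (hT : T.Good) {x x' : X}
    {e : AddMonoid.End T.MX × AddMonoid.End T.MY × AddMonoid.End T.MZ} (h : T.IsForm x x' e) :
    T.IsForm x' x e where
  cen := h.cen
  my m := by rw [h.my, hT.p.p1 x x']
  mz m := by rw [h.mz, hT.p.p2 x x']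
  mx m y := by rw [h.mx, hT.p.p1 x x']
  mx' m z := by rw [h.mx', hT.p.p2 x x']

end

/-- TAX. -/
theorem tax (_ : TcenS.{u}) : TaxS.{u} := by
  intro X Y Z _ _ _ T hT
  refine ⟨fun x x' e => form_symm hT, ?_, ?_, ?_⟩
  · intro m m' m'' e f he hf
    apply Subtype.ext
    refine eq_of_sxy hT (fun y _ => ?_)
    rw [he.mx, hf.mx, hT.p.p2 m''.1 m.1, hT.p.p1 m''.1 m'.1]
  · intro x y z e he
    have K : ∀ y' : Y, T.zx (T.xy (T.yz y.1 z.1) y') x.1 =
        T.zx (T.xy x.1 y.1) (T.yz y' z.1) := by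
      intro y'
      rw [hT.p.p3 y' y.1, hT.p.p1 x.1]
    have A : ∀ m : T.MX, (e.1 m).1 = T.yz (T.zx z.1 m.1) (T.xy x.1 y.1) := by
      intro m
      refine eq_of_sxy hT (fun y' _ => ?_)
      calc T.xy (e.1 m).1 y' = T.xy m.1 (T.zx (T.xy x.1 y.1) (T.yz y' z.1)) := by
            rw [he.mx, K]
        _ = T.xy m.1 (T.zx z.1 (T.yz y' (T.xy x.1 y.1))) := by
            rw [hT.p.p6 z.1 (T.xy x.1 y.1) y']
        _ = T.xy (T.yz y' (T.xy x.1 y.1)) (T.zx z.1 m.1) := by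
            rw [hT.p.p2 m.1]
        _ = T.xy (T.yz (T.zx z.1 m.1) (T.xy x.1 y.1)) y' := by
            rw [hT.p.p3 y' (T.zx z.1 m.1)]
    have B : ∀ m : T.MY, (e.2.1 m).1 = T.zx (T.xy x.1 y.1) (T.yz m.1 z.1) := by
      intro m
      rw [he.my, K]
    have C : ∀ (m : T.MZ) (y0 : X), T.zx (e.2.2 m).1 y0 =
        T.zx m.1 (T.yz (T.zx z.1 y0) (T.xy x.1 y.1)) := by
      intro m y0
      calc T.zx (e.2.2 m).1 y0 = T.zx (T.xy x.1 (T.zx m.1 (T.yz y.1 z.1))) y0 := by rw [he.mz]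
        _ = T.zx (T.xy y0 (T.zx m.1 (T.yz y.1 z.1))) x.1 := by rw [hT.p.p1 y0]
        _ = T.zx (T.xy (T.yz y.1 z.1) (T.zx m.1 y0)) x.1 := by rw [hT.p.p2 y0]
        _ = T.zx (T.xy x.1 y.1) (T.yz (T.zx m.1 y0) z.1) := K _
        _ = T.zx (T.xy x.1 y.1) (T.yz (T.zx z.1 y0) m.1) := by rw [hT.p.p5 z.1 m.1]
        _ = T.zx m.1 (T.yz (T.zx z.1 y0) (T.xy x.1 y.1)) := by rw [hT.p.p6 m.1]
    have D : ∀ (m : T.MZ) (z0 : Y), T.yz z0 (e.2.2 m).1 =
        T.yz (T.zx (T.xy x.1 y.1) (T.yz z0 z.1)) m.1 := by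
      intro m z0
      calc T.yz z0 (e.2.2 m).1 = T.yz z0 (T.xy x.1 (T.zx m.1 (T.yz y.1 z.1))) := by rw [he.mz]
        _ = T.yz (T.zx m.1 (T.yz y.1 z.1)) (T.xy x.1 z0) := by rw [hT.p.p4 z0]
        _ = T.yz (T.zx (T.xy x.1 z0) (T.yz y.1 z.1)) m.1 := by rw [hT.p.p5 m.1]
        _ = T.yz (T.zx (T.xy (T.yz y.1 z.1) z0) x.1) m.1 := by rw [hT.p.p1 x.1]
        _ = T.yz (T.zx (T.xy x.1 y.1) (T.yz z0 z.1)) m.1 := by rw [K]
    exact
      { cen := ⟨he.cen.zx, he.cen.zx', he.cen.xy, he.cen.xy', he.cen.yz, he.cen.yz'⟩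
        my := A
        mz := B
        mx := C
        mx' := D }
  · intro m m' c e hc he
    exact
      { cen := by
          have h1 : c ∈ T.Cen := hc
          have h2 : e ∈ T.Cen := he.cen
          exact T.Cen.mul_mem h1 h2
        my := by
          intro n
          have h : e.2.1 n = T.pZX (T.pXY m' n) m := Subtype.ext (he.my n)
          change (c.2.1 (e.2.1 n)).1 = _
          rw [h, hc.zx']
          rfl
        mz := by
          intro n
          have h : e.2.2 n = T.pXY m (T.pZX n m') := Subtype.ext (he.mz n)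
          change (c.2.2 (e.2.2 n)).1 = _
          rw [h, hc.xy]
          rfl
        mx := by
          intro n y
          change T.xy (c.1 (e.1 n)).1 y = T.xy n.1 (T.zx (T.xy m'.1 y) (c.1 m).1)
          refine eq_of_szx hT (fun x0 hx0 => ?_)
          set w : T.MZ := ⟨T.xy x0 y, AddSubgroup.subset_closure ⟨x0, y, rfl⟩⟩ with hw
          have L : T.zx (T.xy (c.1 (e.1 n)).1 y) x0 = (c.2.1 (T.pZX w (e.1 n))).1 := by
            rw [hT.p.p1 x0, hc.zx']
            rfl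
          have R : T.zx (T.xy n.1 (T.zx (T.xy m'.1 y) (c.1 m).1)) x0 =
              (c.2.1 (T.pZX (T.pXY m (T.pZX w m')) n)).1 := by
            rw [hT.p.p1 x0, hT.p.p2 x0, hT.p.p1 x0 m'.1, hc.zx, hc.xy]
            rfl
          rw [L, R]
          congr 2
          exact Subtype.ext (he.mx' n w.1)
        mx' := by
          intro n z
          change T.zx z (c.1 (e.1 n)).1 = T.zx (T.xy (c.1 m).1 (T.zx z m'.1)) n.1
          refine eq_of_syx hT (fun x0 hx0 => ?_)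
          set w : T.MY := ⟨T.zx z x0, AddSubgroup.subset_closure ⟨z, x0, rfl⟩⟩ with hw
          have L : T.xy x0 (T.zx z (c.1 (e.1 n)).1) = (c.2.2 (T.pXY (e.1 n) w)).1 := by
            rw [hT.p.p2 x0, hc.xy]
            rfl
          have R : T.xy x0 (T.zx (T.xy (c.1 m).1 (T.zx z m'.1)) n.1) =
              (c.2.2 (T.pXY n (T.pZX (T.pXY m' w) m))).1 := by
            rw [hT.p.p2 x0, hT.p.p1 x0, hT.p.p2 x0, hc.xy', hc.zx']
            rfl
          rw [L, R]
          congr 2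
          exact Subtype.ext (he.mx n w.1) }

end Pool.Agent.FourGp.H9
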