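import Pool.Agent.Lib.MP_fb3619_al.Iface

/-! # TCEN and TUNI -/

set_option autoImplicit false

universe u

namespace Pool.Agent.FourGp.H9

section

variable {X Y Z : Type u} [AddCommGroup X] [AddCommGroup Y] [AddCommGroup Z] {T : Tri X Y Z}

lemma eq_of_sxy (hT : T.Good) {u v : X} (h : ∀ y ∈ T.MY, T.xy u y = T.xy v y) : u = v := by
  refine sub_eq_zero.1 (hT.s.sxy _ (fun y hy => ?_))
  rw [map_sub, AddMonoidHom.sub_apply, h y hy, sub_self]

lemma eq_of_sxz (hT : T.Good) {u v : X} (h : ∀ z ∈ T.MZ, T.zx z u = T.zx z v) : u = v := by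
  refine sub_eq_zero.1 (hT.s.sxz _ (fun z hz => ?_))
  rw [map_sub, h z hz, sub_self]

lemma eq_of_syz (hT : T.Good) {u v : Y} (h : ∀ z ∈ T.MZ, T.yz u z = T.yz v z) : u = v := by
  refine sub_eq_zero.1 (hT.s.syz _ (fun z hz => ?_))
  rw [map_sub, AddMonoidHom.sub_apply, h z hz, sub_self]

lemma eq_of_syx (hT : T.Good) {u v : Y} (h : ∀ x ∈ T.MX, T.xy x u = T.xy x v) : u = v := by
  refine sub_eq_zero.1 (hT.s.syx _ (fun z hz => ?_))
  rw [map_sub, h z hz, sub_self]

lemma eq_of_szx (hT : T.Good) {u v : Z} (h : ∀ x ∈ T.MX, T.zx u x = T.zx v x) : u = v := by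
  refine sub_eq_zero.1 (hT.s.szx _ (fun z hz => ?_))
  rw [map_sub, AddMonoidHom.sub_apply, h z hz, sub_self]

lemma eq_of_szy (hT : T.Good) {u v : Z} (h : ∀ y ∈ T.MY, T.yz y u = T.yz y v) : u = v := by
  refine sub_eq_zero.1 (hT.s.szy _ (fun z hz => ?_))
  rw [map_sub, h z hz, sub_self]

lemma mx_ext (hT : T.Good) {u v : T.MX} (h : ∀ y, T.pXY u y = T.pXY v y) : u = v :=
  Subtype.ext (eq_of_sxy hT (fun y hy => congrArg Subtype.val (h ⟨y, hy⟩)))

lemma my_ext (hT : T.Good) {u v : T.MY} (h : ∀ z, T.pYZ u z = T.pYZ v z) : u = v :=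
  Subtype.ext (eq_of_syz hT (fun y hy => congrArg Subtype.val (h ⟨y, hy⟩)))

lemma mz_ext (hT : T.Good) {u v : T.MZ} (h : ∀ x, T.pZX u x = T.pZX v x) : u = v :=
  Subtype.ext (eq_of_szx hT (fun y hy => congrArg Subtype.val (h ⟨y, hy⟩)))

lemma mz_ext' (hT : T.Good) {u v : T.MZ} (h : ∀ y, T.pYZ y u = T.pYZ y v) : u = v :=
  Subtype.ext (eq_of_szy hT (fun y hy => congrArg Subtype.val (h ⟨y, hy⟩)))

/-- A bijective element of the centroid has an inverse in the centroid. -/
lemma cen_inv (c : AddMonoid.End T.MX × AddMonoid.End T.MY × AddMonoid.End T.MZ) (hc : T.IsCen c)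
    (h1 : Function.Bijective c.1) (h2 : Function.Bijective c.2.1)
    (h3 : Function.Bijective c.2.2) : ∃ u, T.IsCen u ∧ u * c = 1 := by
  let e1 := AddEquiv.ofBijective c.1 h1
  let e2 := AddEquiv.ofBijective c.2.1 h2
  let e3 := AddEquiv.ofBijective c.2.2 h3
  have a1 : ∀ x, c.1 (e1.symm x) = x := fun x => e1.apply_symm_apply x
  have a2 : ∀ x, c.2.1 (e2.symm x) = x := fun x => e2.apply_symm_apply x
  have a3 : ∀ x, c.2.2 (e3.symm x) = x := fun x => e3.apply_symm_apply x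
  refine ⟨(e1.symm.toAddMonoidHom, e2.symm.toAddMonoidHom, e3.symm.toAddMonoidHom), ?_, ?_⟩
  · constructor
    · intro x y
      apply h3.1
      change c.2.2 (e3.symm _) = c.2.2 (T.pXY (e1.symm x) y)
      rw [a3, hc.xy, a1]
    · intro x y
      apply h3.1
      change c.2.2 (e3.symm _) = c.2.2 (T.pXY x (e2.symm y))
      rw [a3, hc.xy', a2]
    · intro x y
      apply h1.1
      change c.1 (e1.symm _) = c.1 (T.pYZ (e2.symm x) y)
      rw [a1, hc.yz, a2]
    · intro x y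
      apply h1.1
      change c.1 (e1.symm _) = c.1 (T.pYZ x (e3.symm y))
      rw [a1, hc.yz', a3]
    · intro x y
      apply h2.1
      change c.2.1 (e2.symm _) = c.2.1 (T.pZX (e3.symm x) y)
      rw [a2, hc.zx, a3]
    · intro x y
      apply h2.1
      change c.2.1 (e2.symm _) = c.2.1 (T.pZX x (e1.symm y))
      rw [a2, hc.zx', a1]
  · refine Prod.ext ?_ (Prod.ext ?_ ?_)
    · exact AddMonoidHom.ext (fun x => e1.symm_apply_apply x)
    · exact AddMonoidHom.ext (fun x => e2.symm_apply_apply x)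
    · exact AddMonoidHom.ext (fun x => e3.symm_apply_apply x)

end

/-- TCEN. -/
theorem tcen : TcenS.{u} := by
  intro X Y Z _ _ _ T hT
  constructor
  · intro e f he hf
    refine Prod.ext ?_ (Prod.ext ?_ ?_)
    · refine AddMonoidHom.ext (fun u => ?_)
      change e.1 (f.1 u) = f.1 (e.1 u)
      refine mx_ext hT (fun y => ?_)
      rw [← he.xy, ← hf.xy, hf.xy', he.xy, ← hf.xy', hf.xy]
    · refine AddMonoidHom.ext (fun u => ?_)
      change e.2.1 (f.2.1 u) = f.2.1 (e.2.1 u)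
      refine my_ext hT (fun y => ?_)
      rw [← he.yz, ← hf.yz, hf.yz', he.yz, ← hf.yz', hf.yz]
    · refine AddMonoidHom.ext (fun u => ?_)
      change e.2.2 (f.2.2 u) = f.2.2 (e.2.2 u)
      refine mz_ext hT (fun y => ?_)
      rw [← he.zx, ← hf.zx, hf.zx', he.zx, ← hf.zx', hf.zx]
  · intro e f he hf h
    refine Prod.ext ?_ (Prod.ext ?_ ?_)
    · refine AddMonoidHom.ext (fun u => ?_)
      change e.1 u = f.1 u
      refine mx_ext hT (fun y => ?_)
      rw [← he.xy, ← hf.xy, he.xy', hf.xy', h]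
    · exact AddMonoidHom.ext h
    · refine AddMonoidHom.ext (fun u => ?_)
      change e.2.2 u = f.2.2 u
      refine mz_ext' hT (fun y => ?_)
      rw [← he.yz', ← hf.yz', he.yz, hf.yz, h]

/-- TUNI. -/
theorem tuni : TuniS.{u} := by
  intro X Y Z _ _ _ T hT t ht e he
  obtain ⟨hY, hZ⟩ := ht
  have hc : T.IsCen (1 + e) := by
    have h1 : (1 : AddMonoid.End T.MX × AddMonoid.End T.MY × AddMonoid.End T.MZ) ∈ T.Cen :=
      T.Cen.one_mem
    have h2 : e ∈ T.Cen := he.cen
    exact T.Cen.add_mem h1 h2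
  -- `e` on products
  have ezx : ∀ (z : Z) (x : X), T.zx (T.xy t (T.zx z x)) t = T.zx (T.xy t (T.zx z t)) x := by
    intro z x
    rw [hT.p.p2 t x z, hT.p.p1 t x]
  have exy : ∀ (x : X) (y : Y), T.xy t (T.zx (T.xy x y) t) = T.xy x (T.zx (T.xy t y) t) := by
    intro x y
    rw [hT.p.p1 t x, hT.p.p2 t x]
  have eyz : ∀ (y : Y) (z : Z) (m : T.MX), m.1 = T.yz y z →
      (e.1 m).1 = T.yz (T.zx (T.xy t y) t) z := by
    intro y z m hm
    refine eq_of_sxy hT (fun y' _ => ?_)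
    rw [he.mx, hm, hT.p.p3 y' (T.zx (T.xy t y) t), ← exy, ← exy, hT.p.p3 y y']
  -- bijectivity
  have b2 : Function.Bijective (1 + e).2.1 := by
    constructor
    · refine (injective_iff_map_eq_zero (1 + e).2.1).2 (fun m hm => ?_)
      have h1 : m.1 + T.zx (T.xy t m.1) t = 0 := by
        rw [← he.my]
        exact congrArg Subtype.val hm
      apply Subtype.ext
      apply hY.1
      simp only [ZeroMemClass.coe_zero, map_zero, AddMonoidHom.zero_apply, add_zero]
      exact h1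
    · rintro ⟨y, hy⟩
      refine AddSubgroup.closure_induction (p := fun y hy => ∃ a : T.MY,
        (1 + e).2.1 a = ⟨y, hy⟩) ?_ ⟨0, map_zero _⟩ ?_ ?_ hy
      · rintro _ ⟨z, x, rfl⟩
        obtain ⟨z', hz'⟩ := hZ.2 z
        refine ⟨⟨T.zx z' x, AddSubgroup.subset_closure ⟨z', x, rfl⟩⟩, Subtype.ext ?_⟩
        change T.zx z' x + (e.2.1 _).1 = T.zx z x
        rw [he.my]
        change T.zx z' x + T.zx (T.xy t (T.zx z' x)) t = T.zx z x
        rw [ezx, ← AddMonoidHom.add_apply, ← map_add]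
        have : z' + T.xy t (T.zx z' t) = z := hz'
        rw [this]
      · rintro a b ha hb ⟨a', ha'⟩ ⟨b', hb'⟩
        exact ⟨a' + b', by rw [map_add, ha', hb']; rfl⟩
      · rintro a ha ⟨a', ha'⟩
        exact ⟨-a', by rw [map_neg, ha']; rfl⟩
  have b3 : Function.Bijective (1 + e).2.2 := by
    constructor
    · refine (injective_iff_map_eq_zero (1 + e).2.2).2 (fun m hm => ?_)
      have h1 : m.1 + T.xy t (T.zx m.1 t) = 0 := by
        rw [← he.mz]
        exact congrArg Subtype.val hm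
      apply Subtype.ext
      apply hZ.1
      simp only [ZeroMemClass.coe_zero, map_zero, AddMonoidHom.zero_apply, add_zero]
      exact h1
    · rintro ⟨y, hy⟩
      refine AddSubgroup.closure_induction (p := fun y hy => ∃ a : T.MZ,
        (1 + e).2.2 a = ⟨y, hy⟩) ?_ ⟨0, map_zero _⟩ ?_ ?_ hy
      · rintro _ ⟨x, y, rfl⟩
        obtain ⟨y', hy'⟩ := hY.2 y
        refine ⟨⟨T.xy x y', AddSubgroup.subset_closure ⟨x, y', rfl⟩⟩, Subtype.ext ?_⟩
        change T.xy x y' + (e.2.2 _).1 = T.xy x y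
        rw [he.mz]
        change T.xy x y' + T.xy t (T.zx (T.xy x y') t) = T.xy x y
        rw [exy, ← map_add]
        have : y' + T.zx (T.xy t y') t = y := hy'
        rw [this]
      · rintro a b ha hb ⟨a', ha'⟩ ⟨b', hb'⟩
        exact ⟨a' + b', by rw [map_add, ha', hb']; rfl⟩
      · rintro a ha ⟨a', ha'⟩
        exact ⟨-a', by rw [map_neg, ha']; rfl⟩
  have b1 : Function.Bijective (1 + e).1 := by
    constructor
    · refine (injective_iff_map_eq_zero (1 + e).1).2 (fun m hm => ?_)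
      have h1 : m.1 + (e.1 m).1 = 0 := congrArg Subtype.val hm
      apply Subtype.ext
      change m.1 = 0
      refine hT.s.sxy _ (fun y _ => ?_)
      obtain ⟨y', hy'⟩ := hY.2 y
      have h2 : y' + T.zx (T.xy t y') t = y := hy'
      rw [← h2, map_add, ← he.mx, ← AddMonoidHom.add_apply, ← map_add, h1]
      simp
    · rintro ⟨y, hy⟩
      refine AddSubgroup.closure_induction (p := fun y hy => ∃ a : T.MX,
        (1 + e).1 a = ⟨y, hy⟩) ?_ ⟨0, map_zero _⟩ ?_ ?_ hy
      · rintro _ ⟨y, z, rfl⟩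
        obtain ⟨y', hy'⟩ := hY.2 y
        refine ⟨⟨T.yz y' z, AddSubgroup.subset_closure ⟨y', z, rfl⟩⟩, Subtype.ext ?_⟩
        change T.yz y' z + (e.1 _).1 = T.yz y z
        rw [eyz y' z _ rfl, ← AddMonoidHom.add_apply, ← map_add]
        have : y' + T.zx (T.xy t y') t = y := hy'
        rw [this]
      · rintro a b ha hb ⟨a', ha'⟩ ⟨b', hb'⟩
        exact ⟨a' + b', by rw [map_add, ha', hb']; rfl⟩
      · rintro a ha ⟨a', ha'⟩
        exact ⟨-a', by rw [map_neg, ha']; rfl⟩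
  exact cen_inv (1 + e) hc b1 b2 b3

end Pool.Agent.FourGp.H9
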