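import Pool.Agent.Lib.MP_fb3619_al.Iface

/-! # TGR: a graded system gives a commutative ring -/

set_option autoImplicit false

universe u

namespace Pool.Agent.FourGp.H9

section

variable {E MX MY MZ : Type u} [CommRing E] [AddCommGroup MX] [AddCommGroup MY]
  [AddCommGroup MZ] [Module E MX] [Module E MY] [Module E MZ] (S : GS E MX MY MZ)

/-- The product. -/
def tmul (a b : E × MX × MY × MZ) : E × MX × MY × MZ :=
  (a.1 * b.1 + S.fx a.2.1 b.2.1 + S.fy a.2.2.1 b.2.2.1 + S.fz a.2.2.2 b.2.2.2,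
   a.1 • b.2.1 + b.1 • a.2.1 + S.yz a.2.2.1 b.2.2.2 + S.yz b.2.2.1 a.2.2.2,
   a.1 • b.2.2.1 + b.1 • a.2.2.1 + S.zx a.2.2.2 b.2.1 + S.zx b.2.2.2 a.2.1,
   a.1 • b.2.2.2 + b.1 • a.2.2.2 + S.xy a.2.1 b.2.2.1 + S.xy b.2.1 a.2.2.1)

lemma tmul_comm (a b : E × MX × MY × MZ) : tmul S a b = tmul S b a := by
  simp only [tmul]
  rw [S.fx_symm a.2.1, S.fy_symm a.2.2.1, S.fz_symm a.2.2.2, mul_comm a.1]
  refine Prod.ext rfl (Prod.ext ?_ (Prod.ext ?_ ?_)) <;> simp only <;> abel

lemma tmul_add (a b c : E × MX × MY × MZ) : tmul S a (b + c) = tmul S a b + tmul S a c := by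
  refine Prod.ext ?_ (Prod.ext ?_ (Prod.ext ?_ ?_)) <;>
    simp only [tmul, Prod.fst_add, Prod.snd_add, map_add, smul_add, add_smul, mul_add,
      LinearMap.add_apply] <;> abel

lemma tmul_left_comm (a b c : E × MX × MY × MZ) :
    tmul S a (tmul S b c) = tmul S b (tmul S a c) := by
  obtain ⟨ra, xa, ya, za⟩ := a
  obtain ⟨rb, xb, yb, zb⟩ := b
  obtain ⟨rc, xc, yc, zc⟩ := c
  have q1 : ∀ x y z, S.fy y (S.zx z x) = S.fx x (S.yz y z) := fun x y z => (S.yzx x y z).symm
  have q2 : ∀ x y z, S.fz z (S.xy x y) = S.fx x (S.yz y z) := fun x y z => by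
    rw [S.fz_symm, S.xyz]
  have x1 : S.fx xb xc • xa = S.fx xa xc • xb := by rw [S.xxx xb xc xa, S.fx_symm xc xa]
  have y1 : S.fy yb yc • ya = S.fy ya yc • yb := by rw [S.yyy yb yc ya, S.fy_symm yc ya]
  have z1 : S.fz zb zc • za = S.fz za zc • zb := by rw [S.zzz zb zc za, S.fz_symm zc za]
  have x2 := S.fx_symm xb xa
  have y2 := S.fy_symm yb ya
  have z2 := S.fz_symm zb za
  refine Prod.ext ?_ (Prod.ext ?_ (Prod.ext ?_ ?_))
  · simp only [tmul, map_add, map_smul, LinearMap.add_apply, LinearMap.smul_apply, smul_eq_mul,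
      q1, q2, mul_add, x2, y2, z2]
    ring
  · simp only [tmul, map_add, map_smul, LinearMap.add_apply, LinearMap.smul_apply,
      smul_add, add_smul, smul_smul, ← S.yyx, ← S.zzx, x1, y2, z2]
    module
  · simp only [tmul, map_add, map_smul, LinearMap.add_apply, LinearMap.smul_apply,
      smul_add, add_smul, smul_smul, ← S.xxy, ← S.zzy, y1, x2, z2]
    module
  · simp only [tmul, map_add, map_smul, LinearMap.add_apply, LinearMap.smul_apply,
      smul_add, add_smul, smul_smul, ← S.xxz, ← S.yyz, z1, x2, y2]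
    module

lemma tmul_one (a : E × MX × MY × MZ) : tmul S (1, 0, 0, 0) a = a := by
  simp [tmul]

/-- The ring. -/
@[reducible] def tring : CommRing (E × MX × MY × MZ) :=
  { (inferInstance : AddCommGroup (E × MX × MY × MZ)) with
    mul := tmul S
    one := (1, 0, 0, 0)
    left_distrib := tmul_add S
    right_distrib := fun a b c => by
      change tmul S (a + b) c = tmul S a c + tmul S b c
      rw [tmul_comm, tmul_add, tmul_comm S c, tmul_comm S c]
    zero_mul := fun a => by
      change tmul S 0 a = 0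
      simp [tmul]
    mul_zero := fun a => by
      change tmul S a 0 = 0
      simp [tmul]
    mul_assoc := fun a b c => by
      change tmul S (tmul S a b) c = tmul S a (tmul S b c)
      rw [tmul_comm S (tmul S a b), tmul_left_comm, tmul_comm S c b]
    one_mul := tmul_one S
    mul_one := fun a => by
      change tmul S a (1, 0, 0, 0) = a
      rw [tmul_comm, tmul_one]
    mul_comm := tmul_comm S }

end

/-- TGR. -/
theorem tgr : TgrS.{u} := by
  intro E MX MY MZ _ _ _ _ _ _ _ S
  let R := tring S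
  refine ⟨E × MX × MY × MZ, R,
    { toFun := fun e => (e, 0, 0, 0)
      map_one' := rfl
      map_mul' := fun a b => ?_
      map_zero' := rfl
      map_add' := fun a b => ?_ },
    { toFun := fun x => (0, x, 0, 0), map_zero' := rfl, map_add' := fun a b => ?_ },
    { toFun := fun x => (0, 0, x, 0), map_zero' := rfl, map_add' := fun a b => ?_ },
    { toFun := fun x => (0, 0, 0, x), map_zero' := rfl, map_add' := fun a b => ?_ },
    ?_, ?_, ?_, ?_, ?_, ?_, ?_, ?_, ?_, ?_, ?_⟩
  · change _ = tmul S _ _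
    simp [tmul]
  · simp
  · simp
  · simp
  · simp
  · intro e x y z h
    have h' : (e, x, y, z) = ((0, 0, 0, 0) : E × MX × MY × MZ) := by
      rw [← show ((e, 0, 0, 0) : E × MX × MY × MZ) + (0, x, 0, 0) + (0, 0, y, 0) + (0, 0, 0, z) =
        (e, x, y, z) by simp]
      exact h
    simpa using h'
  · rintro ⟨e, x, y, z⟩
    refine ⟨e, x, y, z, ?_⟩
    change (e, x, y, z) = ((e, 0, 0, 0) : E × MX × MY × MZ) + (0, x, 0, 0) + (0, 0, y, 0) +
      (0, 0, 0, z)
    simp
  all_goals
    intro a b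
    change tmul S _ _ = _
    simp [tmul]

end Pool.Agent.FourGp.H9
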